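import Mathlib
import Pool.Agent.Run7.h765.Final

set_option autoImplicit false

namespace Pool.Agent.Results.MP_94c361_co.ExpLowerBound

/-- For every `n ≥ 3` and every fixed `n`-cycle `σ`, at least a proportion
`(2/3) 2^(-⌊n/3⌋)` of the `n`-cycles `τ` is such that the coefficient of `∏ x_v ^ 2` in the graph
polynomial of the union is not divisible by four (in particular it is not zero). -/
theorem result :
    ∀ n : ℕ, 3 ≤ n → ∀ σ : Equiv.Perm (Fin n), σ.cycleType = {n} →
      (2 / 3 : ℝ) * (1 / 2) ^ (n / 3) *
          (((Finset.univ : Finset (Equiv.Perm (Fin n))).filter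
              (fun τ => τ.cycleType = {n})).card : ℝ) ≤
        (((Finset.univ : Finset (Equiv.Perm (Fin n))).filter
              (fun τ => τ.cycleType = {n} ∧
                ¬ (4 : ℤ) ∣ MvPolynomial.coeff (Finsupp.equivFunOnFinite.symm (fun _ : Fin n => 2))
                  ((∏ v : Fin n, (MvPolynomial.X v - MvPolynomial.X (σ v))) *
                   (∏ v : Fin n, (MvPolynomial.X v - MvPolynomial.X (τ v))) :
                    MvPolynomial (Fin n) ℤ))).card : ℝ) := by
  intro n hn σ hσ
  have h := Run7.h765.final_bound n hn σ hσ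
  rw [Run7.h765.cyc, Finset.filter_filter] at h
  exact h

end Pool.Agent.Results.MP_94c361_co.ExpLowerBound
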