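import Mathlib
import Pool.Agent.Run7.h765.Mom.M9

set_option autoImplicit false

namespace Pool.Agent.Results.MP_94c361_co.MomentLowerBound

/-- For every `n ≥ 3`, every fixed `n`-cycle `σ` and every `θ ∈ [0, 1]`, at least a proportion
`(1 - θ)^2 (6/7)^n / (6561 (n+1)^162)` of the `n`-cycles `τ` is such that the square of the
coefficient of `∏ x_v ^ 2` in the graph polynomial of the union exceeds `θ (16/81) (3/2)^n`. For
`θ = 0` this says that the coefficient is not zero. -/
theorem result :
    ∀ n : ℕ, 3 ≤ n → ∀ σ : Equiv.Perm (Fin n), σ.cycleType = {n} →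
      ∀ θ : ℝ, 0 ≤ θ → θ ≤ 1 →
      (1 - θ) ^ 2 * (6 / 7 : ℝ) ^ n / (6561 * ((n : ℝ) + 1) ^ 162) *
          (((Finset.univ : Finset (Equiv.Perm (Fin n))).filter
              (fun τ => τ.cycleType = {n})).card : ℝ) ≤
        (((Finset.univ : Finset (Equiv.Perm (Fin n))).filter
              (fun τ => τ.cycleType = {n} ∧
                θ * ((16 / 81) * (3 / 2) ^ n) <
                  ((MvPolynomial.coeff (Finsupp.equivFunOnFinite.symm (fun _ : Fin n => 2))
                    ((∏ v : Fin n, (MvPolynomial.X v - MvPolynomial.X (σ v))) *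
                     (∏ v : Fin n, (MvPolynomial.X v - MvPolynomial.X (τ v))) :
                      MvPolynomial (Fin n) ℤ) : ℤ) : ℝ) ^ 2)).card : ℝ) := by
  intro n hn σ hσ θ hθ0 hθ1
  have h := Run7.h765.Mom.moment_bound n hn σ hσ θ hθ0 hθ1
  rw [Run7.h765.cyc, Finset.filter_filter] at h
  exact h

end Pool.Agent.Results.MP_94c361_co.MomentLowerBound
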